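import Pool.Agent.Helper14.SP2.St.C

set_option autoImplicit false

namespace Pool.Agent.Helper38.SP2

open Finset Classical
open Pool.Agent.Helper97.RE (IsPath Rich PP Clean Cb)
open Pool.Agent.Helper14.SP

/-- choosing distinct roots -/
theorem roots {F V : Type} [Fintype F] (m : ℕ) (hm : 2 * Fintype.card F ≤ m) (v : F → V)
    (hv : Function.Injective v) (b : F → Fin m → V) (hb : ∀ f, Function.Injective (b f))
    (P : F → Prop) : ∃ z : F → V, Function.Injective z ∧ ∀ f,
      (P f → ∃ i, z f = b f i) ∧ (¬ P f → z f = v f) := by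
  set S : F → Finset V := fun f => if P f then (univ.image (b f)) \ (univ.image v) else {v f}
    with hS
  have hall : ∀ s : Finset F, #s ≤ #(s.biUnion S) := by
    intro s
    by_cases hs : ∃ f ∈ s, P f
    · obtain ⟨f, hf, hPf⟩ := hs
      have h1 : S f ⊆ s.biUnion S := subset_biUnion_of_mem S hf
      have h2 : Fintype.card F ≤ #(S f) := by
        simp only [hS, if_pos hPf]
        have h3 := le_card_sdiff (univ.image v) (univ.image (b f))
        rw [card_image_of_injective _ (hb f), card_fin] at h3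
        have h4 : #(univ.image v) ≤ Fintype.card F := card_image_le
        omega
      exact (card_le_univ s).trans (h2.trans (card_le_card h1))
    · push_neg at hs
      have h1 : s.biUnion S = s.image v := by
        ext x
        simp only [mem_biUnion, mem_image]
        constructor
        · rintro ⟨f, hf, hx⟩
          simp only [hS, if_neg (hs f hf), mem_singleton] at hx
          exact ⟨f, hf, hx.symm⟩
        · rintro ⟨f, hf, hx⟩
          refine ⟨f, hf, ?_⟩
          simp only [hS, if_neg (hs f hf), mem_singleton]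
          exact hx.symm
      rw [h1, card_image_of_injective _ hv]
  obtain ⟨z, hz, hzS⟩ := (all_card_le_biUnion_card_iff_exists_injective S).1 hall
  refine ⟨z, hz, fun f => ⟨fun hf => ?_, fun hf => ?_⟩⟩
  · have h1 := hzS f
    simp only [hS, if_pos hf, mem_sdiff, mem_image, mem_univ, true_and] at h1
    obtain ⟨⟨i, hi⟩, _⟩ := h1
    exact ⟨i, hi.symm⟩
  · have h1 := hzS f
    simp only [hS, if_neg hf, mem_singleton] at h1
    exact h1

theorem rare_mono {V : Type} [Fintype V] {G : SimpleGraph V} {E E' d L : ℕ} {R : ℕ → ℕ}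
    (h : Rare G E' d L R) (hE : E ≤ E') : Rare G E d L R := fun m h1 h2 =>
  (Nat.mul_le_mul_right _ hE).trans (h m h1 h2)

theorem world_mid {ι F : Type} [Fintype ι] [Fintype F] [Nonempty ι] [Nonempty F] (j : ι → ℕ)
    (J : F → ℕ) (N0 K h : ℕ) (hK : 1 ≤ K) (hh : 1 ≤ h) (hj1 : ∀ c, 1 ≤ j c)
    (hj : ∀ c, j c < h + 2) (hJ : ∀ f, h + 2 ≤ J f)
    (hcond : (∑ c, j c + ∑ f, J f) * Fintype.card ι ≤
      (Fintype.card ι + Fintype.card F - 1) * (h + ∑ c, j c)) :
    World (Sum.elim j J) N0 K (h + 2) := by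
  intro E
  set Ne : ℕ := N0 + 3 * (∑ c, (j c + 1) + 1) + ∑ f, (J f + 2) + 1 with hNe
  set D : ℕ := Ne + ∑ f, J f + 4 with hD
  set m : ℕ := D + 2 * Fintype.card F with hm
  have hJle : ∀ f, J f ≤ ∑ f, J f := fun f => single_le_sum (f := J) (fun _ _ => Nat.zero_le _)
    (mem_univ f)
  obtain ⟨E1, hE1⟩ := common_base F K h E m hK hh (by omega)
  obtain ⟨E3, hE3⟩ := many_good j hj1 (h + 1) (fun c => by have := hj c; omega)
    (Or.inl (by omega)) K E1
  refine ⟨max E1 E3, fun R => ?_⟩
  obtain ⟨AL, hAL⟩ := thmL j hj1 (h + 1) (fun c => by have := hj c; omega) K 2 N0 R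
  obtain ⟨E2, r, d1, hbase⟩ := hE1 R D D
  obtain ⟨d3, hgood⟩ := hE3 (Fintype.card F)
  set s1 : ℕ := Fintype.card ι + Fintype.card F - 1 with hs1
  set e : ℕ := ∑ c, j c + ∑ f, J f with he
  set dd : ℕ := d1 + d3 + AL + 2 * E2 * Fintype.card F + 1 with hdd
  refine ⟨r, max ((2 * E2 * AL) ^ s1) (dd ^ e), ?_⟩
  intro V _ _ G d hdeg hA hrare hmany
  have hcι : 1 ≤ Fintype.card ι := Fintype.card_pos
  have hcF : 1 ≤ Fintype.card F := Fintype.card_pos
  have hn1 : 1 ≤ Fintype.card V := Fintype.card_pos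
  have hcard : Fintype.card (ι ⊕ F) - 1 = s1 := by rw [Fintype.card_sum]
  have hsum : ∑ c, Sum.elim j J c = e := by
    rw [Fintype.sum_sum_type]
    simp only [Sum.elim_inl, Sum.elim_inr, he]
  rw [hcard, hsum] at hA
  have he1 : 1 ≤ e := by
    obtain ⟨c⟩ := (inferInstance : Nonempty ι)
    have h1 : j c ≤ ∑ c, j c := single_le_sum (f := j) (fun _ _ => Nat.zero_le _) (mem_univ c)
    have h2 := hj1 c
    omega
  -- `d` is large
  have hd : dd ≤ d := by
    have h1 : dd ^ e ≤ d ^ e := by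
      calc dd ^ e ≤ max ((2 * E2 * AL) ^ s1) (dd ^ e) := le_max_right _ _
        _ ≤ max ((2 * E2 * AL) ^ s1) (dd ^ e) * Fintype.card V ^ s1 :=
          Nat.le_mul_of_pos_right _ (Nat.pow_pos hn1)
        _ ≤ d ^ e := hA
    exact (Nat.pow_le_pow_iff_left (by omega)).1 h1
  have hd1 : 1 ≤ d := by omega
  have hnum : 2 * E2 * AL * Fintype.card V ^ (Fintype.card ι) ≤ d ^ (h + ∑ c, j c) := by
    refine num_mid s1 (Fintype.card ι) e (h + ∑ c, j c) (2 * E2 * AL) (Fintype.card V) d
      (by omega) hcι hcond hd1 ?_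
    refine le_trans ?_ hA
    exact Nat.mul_le_mul_right _ (le_max_left _ _)
  -- bad centres
  have hrare' : Rare G (max E1 E3) d (h + 1) R := hrare
  obtain ⟨Bad, hBad, hBadgood⟩ := hgood G d R hdeg (by omega) (rare_mono hrare' (le_max_right _ _))
  obtain ⟨v, b, W, A, C, hvinj, hub, hCW, hCBad, hCcard⟩ := hbase G d hdeg (by omega)
    (rare_mono hrare' (le_max_left _ _)) Bad hBad hmany
  -- roots of the long legs
  obtain ⟨z, hz, hz'⟩ := roots m (by omega) v hvinj b (fun f => (hub f).inj)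
    (fun f => Even (J f - (h + 2)))
  set Y : Finset V := univ.image z with hY
  have hYcard : #Y ≤ Fintype.card F := card_image_le
  have hrich : ∀ u ∈ C \ Y, ∀ f, Rich G (J f) Ne u (z f) := by
    intro u hu f
    rw [mem_sdiff] at hu
    have huz : u ≠ z f := fun hc => hu.2 (by rw [hc, hY]; exact mem_image_of_mem _ (mem_univ f))
    have hJf := hJle f
    have hJf2 := hJ f
    by_cases hp : Even (J f - (h + 2))
    · obtain ⟨i, hi⟩ := (hz' f).1 hp
      rw [hi]
      refine (hub f).rich_b (by omega) (J f) Ne hJf2 (by omega) (by omega) i u ?_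
        (fun _ => hCW f hu.1) (fun hc => absurd hp hc)
      rw [← hi]
      exact huz
    · have h1 := (hz' f).2 hp
      rw [h1]
      have hodd : ¬ Even (J f - (h + 2)) := hp
      have hgt : h + 2 + 1 ≤ J f := by
        by_contra hlt
        have : J f - (h + 2) = 0 := by omega
        rw [this] at hodd
        exact hodd (by decide)
      have hev : Even (J f - (h + 2 + 1)) := by
        have : J f - (h + 2) = (J f - (h + 2 + 1)) + 1 := by omega
        rw [this, Nat.even_add_one, not_not] at hodd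
        exact hodd
      refine (hub f).rich_v (by omega) (J f) Ne hgt (by omega) (by omega) (by omega) u ?_
        (fun _ => hCW f hu.1) (fun hc => absurd hev hc)
      rw [← h1]
      exact huz
  -- the good copies of the short spider
  set Ω : Finset (Obj ι V) := {x ∈ WK G j | Good G (h + 1) R j x ∧ x.1 ∈ C \ Y ∧
    ∀ c m, m ≤ j c → x.2 c m ∉ Y} with hΩ
  have hΩcard : #(C \ Y) * d ^ (∑ c, j c) ≤ 2 * #Ω := by
    have h1 : Ω = (C \ Y).biUnion fun u => {x ∈ WK G j | Good G (h + 1) R j x ∧ x.1 = u ∧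
        ∀ c m, m ≤ j c → x.2 c m ∉ Y} := by
      ext x
      simp only [hΩ, mem_filter, mem_biUnion]
      constructor
      · rintro ⟨h1, h2, h3, h4⟩
        exact ⟨x.1, h3, h1, h2, rfl, h4⟩
      · rintro ⟨u, h3, h1, h2, h5, h4⟩
        rw [← h5] at h3
        exact ⟨h1, h2, h3, h4⟩
    have h2 : #Ω = ∑ u ∈ C \ Y, #{x ∈ WK G j | Good G (h + 1) R j x ∧ x.1 = u ∧
        ∀ c m, m ≤ j c → x.2 c m ∉ Y} := by
      rw [h1, card_biUnion]
      intro u _ u' _ huu
      rw [Function.onFun, disjoint_left]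
      intro x hx hx'
      simp only [mem_filter] at hx hx'
      exact huu (hx.2.2.1.symm.trans hx'.2.2.1)
    rw [h2, mul_sum, ← smul_eq_mul, ← sum_const]
    refine sum_le_sum fun u hu => ?_
    rw [mem_sdiff] at hu
    exact hBadgood u (fun hb => (disjoint_left.1 hCBad hu.1) hb) Y hYcard hu.2
  have hCY : d ^ h ≤ 2 * E2 * #(C \ Y) := by
    have h1 := le_card_sdiff Y C
    have h2 : d ≤ d ^ h := Nat.le_self_pow (by omega) d
    have h3 : E2 * #C ≤ E2 * (#(C \ Y) + Fintype.card F) := Nat.mul_le_mul_left _ (by omega)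
    nlinarith
  have hL3 : AL * Fintype.card V ^ (Fintype.card ι) ≤ #(C \ Y) * d ^ (∑ c, j c) := by
    have hE2 : 0 < E2 := by
      rcases Nat.eq_zero_or_pos E2 with h0 | h0
      · rw [h0] at hCcard
        have : 0 < d ^ h := Nat.pow_pos hd1
        omega
      · exact h0
    have h1 : 2 * E2 * (AL * Fintype.card V ^ (Fintype.card ι)) ≤
        2 * E2 * (#(C \ Y) * d ^ (∑ c, j c)) := by
      calc 2 * E2 * (AL * Fintype.card V ^ (Fintype.card ι))
          = 2 * E2 * AL * Fintype.card V ^ (Fintype.card ι) := by ring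
        _ ≤ d ^ (h + ∑ c, j c) := hnum
        _ = d ^ h * d ^ (∑ c, j c) := pow_add _ _ _
        _ ≤ (2 * E2 * #(C \ Y)) * d ^ (∑ c, j c) := Nat.mul_le_mul_right _ hCY
        _ = 2 * E2 * (#(C \ Y) * d ^ (∑ c, j c)) := by ring
    exact Nat.le_of_mul_le_mul_left h1 (by omega)
  obtain ⟨X, hXY, hX⟩ := hAL G d (fun w => (hdeg w).2) (by omega) (C \ Y) Y Ω
    (fun u Z => Ext G J z u Z) (by
      intro x hx
      rw [hΩ, mem_filter] at hx
      exact ⟨hx.2.1, hx.2.2.1, (mem_sdiff.1 hx.2.2.1).2, hx.2.2.2⟩)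
    hΩcard hL3 (fun u Z Z' hZ h' => h'.anti hZ) (by
      intro u hu Z hZ
      exact ext_of_rich G J (fun f => by have := hJ f; omega) z hz u Z Ne (by omega)
        (hrich u hu))
  refine ⟨Sum.elim X z, ?_⟩
  exact flex_of_short G j J hj1 (fun f => by have := hJ f; omega) X z Y
    (fun f => mem_image_of_mem _ (mem_univ f)) hXY N0 hX

end Pool.Agent.Helper38.SP2
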